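import Pool.Agent.H121.SH.Iface

set_option autoImplicit false

open Pool.Agent.H121.SH

namespace Pool.Agent.H686.SH.ParG

open Filter

theorem ev (C δ : ℝ) (hC : 0 < C) (hδ : 0 < δ) : ∃ K0 : ℕ, 3 ≤ K0 ∧ ∀ K : ℕ, K0 ≤ K →
    C * Real.log K ≤ (K : ℝ) ^ δ ∧ 1 / δ ≤ C * Real.log K := by
  have h1 : ∀ᶠ x : ℝ in atTop, C * Real.log x ≤ x ^ δ := by
    have h := (isLittleO_log_rpow_atTop hδ).def (inv_pos.2 hC)
    filter_upwards [h, eventually_ge_atTop (1 : ℝ)] with x hx hx1
    rw [Real.norm_of_nonneg (Real.log_nonneg hx1),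
      Real.norm_of_nonneg (Real.rpow_nonneg (by linarith) _)] at hx
    calc C * Real.log x ≤ C * (C⁻¹ * x ^ δ) := mul_le_mul_of_nonneg_left hx hC.le
      _ = x ^ δ := by field_simp
  have h2 : ∀ᶠ x : ℝ in atTop, 1 / δ ≤ C * Real.log x :=
    (Real.tendsto_log_atTop.const_mul_atTop hC).eventually_ge_atTop _
  have h3 := tendsto_natCast_atTop_atTop.eventually (h1.and h2)
  obtain ⟨K1, hK1⟩ := Filter.eventually_atTop.1 h3
  refine ⟨max 3 K1, le_max_left _ _, fun K hK => hK1 K ((le_max_right _ _).trans hK)⟩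

theorem bd (D ε δ x lam : ℝ) (hD : 0 < D) (hε : 0 < ε) (hδ : 0 < δ) (hδ1 : δ ≤ 1) (hx : 3 ≤ x)
    (h1 : ((1 + ε) * (4 * D)) * Real.log x ≤ x ^ δ) (h2 : 1 / δ ≤ ((1 + ε) * (4 * D)) * Real.log x)
    (hlam : (1 + ε) * (4 * D * x * Real.log x) ≤ lam) :
    Real.exp 1 ≤ lam ∧ x / lam ≤ δ ∧
      4 * D * (x * Real.log lam / lam) ≤ (1 + δ) / (1 + ε) := by
  have he : Real.exp 1 ≤ 3 := by linarith [Real.exp_one_lt_d9]
  set c := ((1 + ε) * (4 * D)) * Real.log x with hc
  have hc1 : 1 ≤ 1 / δ := by rw [le_div_iff₀ hδ]; linarith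
  have hlam1 : c * x ≤ lam := by
    refine le_trans (le_of_eq ?_) hlam
    rw [hc]; ring
  have hlogx : 0 < Real.log x := Real.log_pos (by linarith)
  have hcx : x ≤ c * x := by nlinarith
  have hx0 : 0 < x := by linarith
  have hc0 : 0 < c := by linarith
  have hcxpos : 0 < c * x := mul_pos hc0 hx0
  have hlampos : 0 < lam := by linarith
  refine ⟨by linarith, ?_, ?_⟩
  · rw [div_le_iff₀ hlampos]
    have : 1 ≤ δ * c := by
      rw [div_le_iff₀ hδ] at h2
      linarith
    nlinarith
  · have hanti := Real.log_div_self_antitoneOn (a := c * x) (b := lam)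
      (Set.mem_ofPred_eq ▸ by linarith) (Set.mem_ofPred_eq ▸ by linarith) hlam1
    have hlog : Real.log (c * x) ≤ (1 + δ) * Real.log x := by
      rw [Real.log_mul hc0.ne' hx0.ne']
      have : Real.log c ≤ δ * Real.log x := by
        rw [← Real.log_rpow hx0]
        exact Real.log_le_log hc0 h1
      linarith
    have e1 : 4 * D * (x * Real.log lam / lam) = 4 * D * x * (Real.log lam / lam) := by ring
    rw [e1]
    calc 4 * D * x * (Real.log lam / lam) ≤ 4 * D * x * (Real.log (c * x) / (c * x)) :=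
          mul_le_mul_of_nonneg_left hanti (by positivity)
      _ ≤ 4 * D * x * (((1 + δ) * Real.log x) / (c * x)) := by
          refine mul_le_mul_of_nonneg_left ?_ (by positivity)
          exact div_le_div_of_nonneg_right hlog hcxpos.le
      _ = (1 + δ) / (1 + ε) := by
          rw [hc]
          field_simp

/-- the constants for `h = τ / log lam` -/
theorem cvals (D lam τ : ℝ) (hlam : Real.exp 1 ≤ lam) (hτ : 0 < τ) :
    cC D lam (τ / Real.log lam) =
      2 * D * Real.exp τ / τ * (Real.log lam / lam) + Real.exp τ / lam ∧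
    cM D lam (τ / Real.log lam) = 2 * D * Real.exp (-τ) / lam +
      2 * D * ((Real.exp τ - Real.exp (-τ)) / τ) * (Real.log lam / lam) + Real.exp τ / lam ∧
    k1 D lam (τ / Real.log lam) = 2 * (4 * D + 1) * (4 * D + 2 * D / τ * Real.log lam) / lam ^ 2 := by
  have hlam0 : 0 < lam := (Real.exp_pos 1).trans_le hlam
  have hl : 1 ≤ Real.log lam := by
    rw [Real.le_log_iff_exp_le hlam0]; exact hlam
  have hl0 : Real.log lam ≠ 0 := by linarith
  have e1 : lam ^ (τ / Real.log lam) = Real.exp τ := by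
    rw [Real.rpow_def_of_pos hlam0]; congr 1; field_simp
  have e2 : lam ^ (-(τ / Real.log lam)) = Real.exp (-τ) := by
    rw [Real.rpow_def_of_pos hlam0]; congr 1; field_simp
  have e3 : lam ^ (τ / Real.log lam - 1) = Real.exp τ / lam := by
    rw [Real.rpow_sub_one hlam0.ne', e1]
  refine ⟨?_, ?_, ?_⟩
  · rw [cC, e1, e3]; field_simp
  · rw [cM, e1, e2, e3]; field_simp
  · rw [k1]; field_simp

theorem parG : S_parG := by
  intro D ε hD hε
  -- τ
  set E : ℝ := 1 + ε / 2 with hE
  obtain ⟨τ, hτ0, hτ1, hτE⟩ : ∃ τ : ℝ, 0 < τ ∧ τ ≤ 1 / 2 ∧ Real.exp τ ≤ E := by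
    refine ⟨min (1 / 2) (Real.log E), ?_, min_le_left _ _, ?_⟩
    · exact lt_min (by norm_num) (Real.log_pos (by rw [hE]; linarith))
    · calc Real.exp (min (1 / 2) (Real.log E)) ≤ Real.exp (Real.log E) :=
          Real.exp_le_exp.2 (min_le_right _ _)
        _ = E := Real.exp_log (by rw [hE]; linarith)
  have hE1 : 1 < E := by rw [hE]; linarith
  set L : ℝ := 1 + E / τ + E with hL
  have hEτ : 0 < E / τ := by positivity
  have hL1 : 1 ≤ L := by rw [hL]; linarith
  set q0 : ℝ := E / (1 + ε) with hq0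
  have hq0p : 0 < q0 := by positivity
  have hq01 : q0 < 1 := by
    rw [hq0, div_lt_one (by linarith), hE]; linarith
  set M : ℝ := 2 * D + E + L * (2 * (4 * D + 1) * (4 * D + 1 / τ) + 2 * D * L) with hM
  have hMp : 0 < M := by positivity
  set δ : ℝ := (1 - q0) / (2 * (1 + M)) with hδdef
  have hδ : 0 < δ := by
    rw [hδdef]; apply div_pos <;> linarith
  have hδ1 : δ ≤ 1 := by
    rw [hδdef, div_le_one (by linarith)]; linarith
  have hδM : (1 + M) * δ = (1 - q0) / 2 := by
    rw [hδdef]; field_simp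
  obtain ⟨K0, hK03, hK0⟩ := ev ((1 + ε) * (4 * D)) δ (by positivity) hδ
  set q1 : ℝ := (1 + q0) / 2 with hq1
  set q : ℝ := (1 + q1) / 2 with hq
  have hq1p : 0 < q1 := by rw [hq1]; linarith
  have hq1q : q1 < q := by rw [hq, hq1]; linarith
  have hq1' : q < 1 := by rw [hq, hq1]; linarith
  refine ⟨K0, L, Real.log (q / q1) / 2, q, by omega, hL1, ?_, hq1', ?_⟩
  · apply div_pos _ (by norm_num)
    exact Real.log_pos ((one_lt_div hq1p).2 hq1q)
  intro K hK lam hlam
  obtain ⟨h1, h2⟩ := hK0 K hK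
  have hK3 : (3 : ℝ) ≤ K := by exact_mod_cast hK03.trans hK
  obtain ⟨g1, g2, g3⟩ := bd D ε δ K lam hD hε hδ hδ1 hK3 h1 h2 hlam
  have hlam0 : 0 < lam := (Real.exp_pos 1).trans_le g1
  have hl : 1 ≤ Real.log lam := by
    rw [Real.le_log_iff_exp_le hlam0]; exact g1
  have he1 : (1 : ℝ) ≤ Real.exp 1 := by
    have := Real.add_one_le_exp (1 : ℝ); linarith
  obtain ⟨c1, c2, c3⟩ := cvals D lam τ g1 hτ0
  -- elementary bounds
  have hT1 : 1 + τ ≤ Real.exp τ := by linarith [Real.add_one_le_exp τ]
  have hTn0 : 0 < Real.exp (-τ) := Real.exp_pos _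
  have hTn1 : Real.exp (-τ) ≤ 1 := Real.exp_le_one_iff.2 (by linarith)
  have hS2 : Real.exp τ - Real.exp (-τ) ≤ 2 * E * τ := by
    have e1 : Real.exp (-τ) = Real.exp τ * Real.exp (-(2 * τ)) := by
      rw [← Real.exp_add]; congr 1; ring
    have e2 : 1 - 2 * τ ≤ Real.exp (-(2 * τ)) := by
      linarith [Real.add_one_le_exp (-(2 * τ))]
    have e3 : Real.exp τ * (1 - 2 * τ) ≤ Real.exp (-τ) := by
      rw [e1]; exact mul_le_mul_of_nonneg_left e2 (Real.exp_pos τ).le
    have e4 : Real.exp τ * τ ≤ E * τ := mul_le_mul_of_nonneg_right hτE hτ0.le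
    linarith
  set T : ℝ := Real.exp τ with hTdef
  set T' : ℝ := Real.exp (-τ) with hT'def
  set S : ℝ := (T - T') / τ with hSdef
  have hS1 : 1 ≤ S := by
    rw [hSdef, le_div_iff₀ hτ0]; linarith
  have hS3 : S ≤ 2 * E := by
    rw [hSdef, div_le_iff₀ hτ0]; exact hS2
  set a : ℝ := K * Real.log lam / lam with ha
  set b : ℝ := K / lam with hb
  have hK0' : (0 : ℝ) < K := by linarith
  have ha0 : 0 < a := by rw [ha]; positivity
  have hb0 : 0 < b := by rw [hb]; positivity
  have ha1 : 4 * D * a * E ≤ q0 + δ := by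
    calc 4 * D * a * E ≤ (1 + δ) / (1 + ε) * E := mul_le_mul_of_nonneg_right g3 (by linarith)
      _ = q0 + q0 * δ := by rw [hq0]; field_simp
      _ ≤ q0 + δ := by linarith [mul_le_of_le_one_left hδ.le hq01.le]
  have ha2 : 2 * D * a ≤ 1 := by
    have : (1 + δ) / (1 + ε) ≤ 2 := by
      rw [div_le_iff₀ (by linarith)]; linarith
    linarith
  have hb1 : b ≤ 1 := by linarith
  have hDa0 : 0 < D * a := by positivity
  have hcC : cC D lam (τ / Real.log lam) = (2 * D * a * (T / τ) + T * b) / K := by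
    rw [c1, ha, hb]; field_simp
  have hcC0 : 0 < cC D lam (τ / Real.log lam) := by rw [hcC]; positivity
  have hKcC : K * cC D lam (τ / Real.log lam) ≤ L := by
    rw [hcC, mul_div_cancel₀ _ hK0'.ne']
    have e1 : 2 * D * a * (T / τ) ≤ 1 * (E / τ) := by
      apply mul_le_mul ha2 (div_le_div_of_nonneg_right hτE hτ0.le) (by positivity) (by norm_num)
    have e2 : T * b ≤ E * 1 := mul_le_mul hτE hb1 hb0.le (by linarith)
    rw [hL]; linarith
  have hcCL : cC D lam (τ / Real.log lam) ≤ L :=
    le_trans (le_mul_of_one_le_left hcC0.le (by linarith)) hKcC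
  refine ⟨τ / Real.log lam, by positivity, ?_, by linarith, ?_, hKcC, ?_⟩
  · calc τ / Real.log lam ≤ τ / 1 := div_le_div_of_nonneg_left hτ0.le one_pos hl
      _ ≤ 1 / 2 := by rw [div_one]; exact hτ1
  · rw [c1, c2]
    have hll : 0 < Real.log lam / lam := by positivity
    have e1 : 2 * D * T / τ * (Real.log lam / lam) ≤ L * (2 * D * S * (Real.log lam / lam)) := by
      have e11 : 2 * D * T / τ ≤ L * (2 * D * S) := by
        have : T / τ ≤ L * S := by
          calc T / τ ≤ E / τ := div_le_div_of_nonneg_right hτE hτ0.le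
            _ ≤ L := by rw [hL]; linarith
            _ ≤ L * S := le_mul_of_one_le_right (by linarith) hS1
        calc 2 * D * T / τ = 2 * D * (T / τ) := by ring
          _ ≤ 2 * D * (L * S) := mul_le_mul_of_nonneg_left this (by linarith)
          _ = _ := by ring
      calc 2 * D * T / τ * (Real.log lam / lam) ≤ L * (2 * D * S) * (Real.log lam / lam) :=
            mul_le_mul_of_nonneg_right e11 hll.le
        _ = _ := by ring
    have e2 : T / lam ≤ L * (T / lam) := by
      have : 0 < T / lam := by positivity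
      exact le_mul_of_one_le_left this.le hL1
    have e3 : 0 < L * (2 * D * T' / lam) := by positivity
    calc 2 * D * T / τ * (Real.log lam / lam) + T / lam
        ≤ L * (2 * D * S * (Real.log lam / lam)) + L * (T / lam) := add_le_add e1 e2
      _ ≤ _ := by
          have : L * (2 * D * T' / lam + 2 * D * S * (Real.log lam / lam) + T / lam) =
            L * (2 * D * T' / lam) + L * (2 * D * S * (Real.log lam / lam)) + L * (T / lam) := by ring
          rw [this]; linarith
  · have hexp : Real.exp (2 * (Real.log (q / q1) / 2)) = q / q1 := by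
      rw [show 2 * (Real.log (q / q1) / 2) = Real.log (q / q1) by ring,
        Real.exp_log (div_pos (by linarith) hq1p)]
    rw [hexp]
    have hmain : K * cM D lam (τ / Real.log lam) + L * K ^ 2 *
        (k1 D lam (τ / Real.log lam) + k2 D lam (τ / Real.log lam)) ≤ q1 := by
      have f1 : K * cM D lam (τ / Real.log lam) = 2 * D * T' * b + 2 * D * S * a + T * b := by
        rw [c2, ha, hb]; ring
      have f2 : K ^ 2 * k1 D lam (τ / Real.log lam) =
          2 * (4 * D + 1) * (4 * D * b + 2 * D * a * (1 / τ)) * b := by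
        rw [c3, ha, hb]; field_simp
      have f3 : K ^ 2 * k2 D lam (τ / Real.log lam) =
          2 * D * b * cC D lam (τ / Real.log lam) * b := by
        rw [k2, hb]; field_simp
      have f4 : 2 * D * T' * b ≤ 2 * D * b := by
        have : 0 < D * b := by positivity
        linarith [mul_le_of_le_one_right this.le hTn1]
      have f5 : 2 * D * S * a ≤ q0 + δ := by
        have : D * a * S ≤ D * a * (2 * E) := mul_le_mul_of_nonneg_left hS3 hDa0.le
        linarith
      have f6 : T * b ≤ E * b := mul_le_mul_of_nonneg_right hτE hb0.le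
      have f7 : 2 * (4 * D + 1) * (4 * D * b + 2 * D * a * (1 / τ)) * b ≤
          2 * (4 * D + 1) * (4 * D + 1 / τ) * b := by
        have g1 : 4 * D * b + 2 * D * a * (1 / τ) ≤ 4 * D + 1 / τ := by
          have : 2 * D * a * (1 / τ) ≤ 1 * (1 / τ) :=
            mul_le_mul_of_nonneg_right ha2 (by positivity)
          have h4 : 4 * D * b ≤ 4 * D := mul_le_of_le_one_right (by positivity) hb1
          linarith
        exact mul_le_mul_of_nonneg_right (mul_le_mul_of_nonneg_left g1 (by positivity)) hb0.le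
      have f8 : 2 * D * b * cC D lam (τ / Real.log lam) * b ≤ 2 * D * L * b := by
        have g1 : 2 * D * b * cC D lam (τ / Real.log lam) ≤ 2 * D * 1 * L :=
          mul_le_mul (mul_le_mul_of_nonneg_left hb1 (by positivity)) hcCL hcC0.le (by positivity)
        calc 2 * D * b * cC D lam (τ / Real.log lam) * b ≤ 2 * D * 1 * L * b :=
              mul_le_mul_of_nonneg_right g1 hb0.le
          _ = _ := by ring
      have f9 : L * K ^ 2 * (k1 D lam (τ / Real.log lam) + k2 D lam (τ / Real.log lam)) ≤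
          L * (2 * (4 * D + 1) * (4 * D + 1 / τ) * b + 2 * D * L * b) := by
        have : L * K ^ 2 * (k1 D lam (τ / Real.log lam) + k2 D lam (τ / Real.log lam)) =
            L * (K ^ 2 * k1 D lam (τ / Real.log lam) + K ^ 2 * k2 D lam (τ / Real.log lam)) := by
          ring
        rw [this, f2, f3]
        exact mul_le_mul_of_nonneg_left (add_le_add f7 f8) (by linarith)
      have f10 : M * b ≤ M * δ := mul_le_mul_of_nonneg_left g2 hMp.le
      have f11 : M * b = 2 * D * b + E * b +
          L * (2 * (4 * D + 1) * (4 * D + 1 / τ) * b + 2 * D * L * b) := by rw [hM]; ring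
      rw [f1, hq1]
      linarith
    calc q / q1 * (K * cM D lam (τ / Real.log lam) + L * K ^ 2 *
        (k1 D lam (τ / Real.log lam) + k2 D lam (τ / Real.log lam))) ≤ q / q1 * q1 :=
          mul_le_mul_of_nonneg_left hmain (by positivity)
      _ = q := by field_simp

end Pool.Agent.H686.SH.ParG
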